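import Mathlib

/-!
# Higher-order weak-coupling asymptotics can fail, whatever finite number of integrability
conditions is imposed
-/

set_option autoImplicit false
open Filter Topology MeasureTheory

namespace Pool.Agent.Results.MP_245269_an.HigherOrderFails

section Defs

variable {B : Type*} [NormedAddCommGroup B] [NormedSpace ℂ B]

/-- `U` (used at times `t ≥ 0`) is a strongly continuous one-parameter semigroup on `B`. -/
structure IsC0Semigroup (U : ℝ → B →L[ℂ] B) : Prop where
  zero : U 0 = 1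
  add : ∀ s t, 0 ≤ s → 0 ≤ t → U (s + t) = U s * U t
  cont : ∀ x, ContinuousOn (fun t => U t x) (Set.Ici 0)

/-- The (possibly unbounded) operator `A` is the generator of `U`: its domain consists exactly of
those `x` for which `(U h x - x) / h` converges as `h → 0+`, and the limit is `A x`. -/
def IsGenerator (A : B →ₗ.[ℂ] B) (U : ℝ → B →L[ℂ] B) : Prop :=
  (∀ x : B, x ∈ A.domain ↔
    ∃ y, Tendsto (fun h : ℝ => (h : ℂ)⁻¹ • (U h x - x)) (𝓝[>] 0) (𝓝 y)) ∧
  ∀ x : A.domain, Tendsto (fun h : ℝ => (h : ℂ)⁻¹ • (U h x - x)) (𝓝[>] 0) (𝓝 (A x))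

/-- The setting of the problem: a bounded projection `P` with finite-dimensional range, operators
`L0`, `L` (not assumed bounded) such that `L0 + lam L` generates the `C_0`-semigroup `U lam` for
`0 ≤ lam < lamSup`, with `U 0 t` leaving the range and the kernel of `P` invariant, `P L P = 0`, and
`U 0 t` invertible (`V` is the group extending it to all real times). -/
structure Setting (B : Type*) [NormedAddCommGroup B] [NormedSpace ℂ B] where
  P : B →L[ℂ] B
  P_proj : P * P = P
  P_fin : FiniteDimensional ℂ (LinearMap.range (P : B →ₗ[ℂ] B))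
  L0 : B →ₗ.[ℂ] B
  L : B →ₗ.[ℂ] B
  lamSup : ℝ
  lamSup_pos : 0 < lamSup
  U : ℝ → ℝ → B →L[ℂ] B
  semigroup : ∀ lam, 0 ≤ lam → lam < lamSup → IsC0Semigroup (U lam)
  generator : ∀ lam, 0 ≤ lam → lam < lamSup → IsGenerator (L0 + (lam : ℂ) • L) (U lam)
  inv_range : ∀ t, 0 ≤ t → ∀ x, P x = x → P (U 0 t x) = U 0 t x
  inv_ker : ∀ t, 0 ≤ t → ∀ x, P x = 0 → P (U 0 t x) = 0
  PLP : ∀ x, ∃ h : P x ∈ L.domain, P (L ⟨P x, h⟩) = 0
  V : ℝ → B ≃L[ℂ] B
  V_nonneg : ∀ t, 0 ≤ t → (V t : B →L[ℂ] B) = U 0 t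
  V_neg : ∀ t, t < 0 → V t = (V (-t)).symm

variable (S : Setting B)

/-- `y = L_t x`, where `L_t = (U^0_t)⁻¹ L U^0_t`. -/
def Setting.Lt (t : ℝ) (x y : B) : Prop :=
  ∃ h : S.V t x ∈ S.L.domain, (S.V t).symm (S.L ⟨S.V t x, h⟩) = y

/-- `y = L_{t_1} L_{t_2} ⋯ L_{t_k} x` (all intermediate vectors lying in the domains). -/
def Setting.IsProd : List ℝ → B → B → Prop
  | [], x, y => x = y
  | t :: ts, x, y => ∃ z, Setting.IsProd ts x z ∧ S.Lt t z y

/-- `A` is the operator `P L_{t_1} ⋯ L_{t_k} P`.  (Operators on the range of `P` are represented by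
operators `A` on `B` with `P A P = A`.) -/
def Setting.IsPProd (ts : List ℝ) (A : B →L[ℂ] B) : Prop :=
  ∀ x : B, ∃ y, S.IsProd ts (S.P x) y ∧ A x = S.P y

/-- The integrability hypotheses of the problem for the integer `n`: for `1 ≤ k ≤ n + 1` the
operators `P L_{t_1} ⋯ L_{t_k} P` are well-defined and bounded for all real times and absolutely
integrable over `{t_k < ⋯ < t_1 < t}` for all `t ≥ 0`. -/
def Setting.Hypothesis (n : ℕ) : Prop :=
  ∀ k, 1 ≤ k → k ≤ n + 1 → ∃ A : (Fin k → ℝ) → B →L[ℂ] B,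
    (∀ τ, S.IsPProd (List.ofFn τ) (A τ)) ∧
    ∀ t : ℝ, 0 ≤ t → IntegrableOn (fun τ => ‖A τ‖)
      {τ | (∀ i j, i < j → τ j < τ i) ∧ ∀ i, τ i < t}

/-- The reduced dynamics `P (U^0_s)⁻¹ U^lam_s P`. -/
noncomputable def Setting.reduced (lam s : ℝ) : B →L[ℂ] B :=
  S.P * ((S.V s).symm : B →L[ℂ] B) * S.U lam s * S.P

/-- The product `u_t r` with `r = ∑_{j ≤ m} lam^j R_j` and `u_t = exp (t ∑_{j ≤ m'} lam^j G_j)`. -/
noncomputable def ansatz (m m' : ℕ) (R G : ℕ → B →L[ℂ] B) (lam t : ℝ) : B →L[ℂ] B :=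
  NormedSpace.exp ((t : ℂ) • ∑ j ∈ Finset.range (m' + 1), ((lam : ℂ) ^ j) • G j) *
    ∑ j ∈ Finset.range (m + 1), ((lam : ℂ) ^ j) • R j

/-- The conclusion of the problem for the integer `n`: there are operators `R_j`, `G_j` on the range
of `P` (that is, `P R_j P = R_j` and `P G_j P = G_j`) such that for every fixed `t > 0` the reduced
dynamics at time `t / lam ^ 2` is `u_t r + O(lam ^ (2 n + 2))` as `lam → 0+`. -/
def Setting.Conclusion (n : ℕ) : Prop :=
  ∃ (m m' : ℕ) (R G : ℕ → B →L[ℂ] B),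
    (∀ j, S.P * R j * S.P = R j) ∧ (∀ j, S.P * G j * S.P = G j) ∧ ∀ t : ℝ, 0 < t →
    (fun lam : ℝ => S.reduced lam (t / lam ^ 2) - ansatz m m' R G lam t)
      =O[𝓝[>] 0] (fun lam : ℝ => lam ^ (2 * n + 2))

/-- All `U lam t` are isometries. -/
def Setting.Isometric : Prop := ∀ lam t x, ‖S.U lam t x‖ = ‖x‖

/-- `P L_{t_1} ⋯ L_{t_k} P = 0` for all real times and all `1 ≤ k ≤ K`. -/
def Setting.VanishUpTo (K : ℕ) : Prop :=
  ∀ ts : List ℝ, 1 ≤ ts.length → ts.length ≤ K → S.IsPProd ts 0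

/-- For no `m`, `m'`, `R_j`, `G_j` does the difference between the reduced dynamics at time
`t / lam ^ 2` and `u_t r` tend to `0` as `lam → 0+`. -/
def Setting.NoExpansionAt (t : ℝ) : Prop :=
  ∀ (m m' : ℕ) (R G : ℕ → B →L[ℂ] B),
    ¬ Tendsto (fun lam : ℝ => S.reduced lam (t / lam ^ 2) - ansatz m m' R G lam t)
      (𝓝[>] 0) (𝓝 0)

end Defs

/-! ### The example -/

section Example

variable (K : ℕ)

/-- the weights of the functional defining the projection -/
noncomputable def gw (j : ℕ) : ℂ :=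
  (if j = 0 then 1 else 0) - (-1) ^ (K + 1 - j) * ((K + 1).choose j : ℂ)

/-- a finite difference vanishes on low powers -/
theorem diff_zero {k : ℕ} (hk : k < K + 1) :
    ∑ j ∈ Finset.range (K + 2), (-1 : ℂ) ^ (K + 1 - j) * ((K + 1).choose j : ℂ) * (j : ℂ) ^ k = 0 := by
  have h1 := fwdDiff_iter_pow_eq_zero_of_lt (R := ℂ) hk
  have h2 := fwdDiff_iter_eq_sum_shift (1 : ℂ) (fun r : ℂ => r ^ k) (K + 1) 0
  rw [h1] at h2
  simp only [Pi.zero_apply] at h2
  rw [eq_comm] at h2
  rw [← h2]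
  refine Finset.sum_congr rfl fun j _ => ?_
  rw [zsmul_eq_mul]
  push_cast
  simp

theorem gw_pow {k : ℕ} (h1 : 1 ≤ k) (hk : k ≤ K) :
    ∑ j ∈ Finset.range (K + 2), gw K j * (j : ℂ) ^ k = 0 := by
  have h2 := diff_zero K (show k < K + 1 by omega)
  unfold gw
  simp only [sub_mul]
  rw [Finset.sum_sub_distrib, h2, sub_zero]
  apply Finset.sum_eq_zero
  intro j _
  by_cases hj : j = 0
  · subst hj
    simp
    omega
  · simp [hj]

theorem gw_sum : ∑ j ∈ Finset.range (K + 2), gw K j = 1 := by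
  have h2 := diff_zero K (show 0 < K + 1 by omega)
  simp only [pow_zero, mul_one] at h2
  unfold gw
  rw [Finset.sum_sub_distrib, h2, sub_zero]
  rw [Finset.sum_ite_eq' (Finset.range (K + 2)) 0 (fun _ => (1:ℂ))]
  simp

theorem gw_exp (w : ℂ) : ∑ j ∈ Finset.range (K + 2), gw K j * w ^ j = 1 - (w - 1) ^ (K + 1) := by
  unfold gw
  simp only [sub_mul]
  rw [Finset.sum_sub_distrib]
  congr 1
  · rw [Finset.sum_eq_single 0]
    · simp
    · intro j _ hj; simp [hj]
    · intro h; simp at h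
  · rw [sub_eq_add_neg w 1, add_pow]
    refine Finset.sum_congr rfl fun j _ => ?_
    ring

/-- the space -/
abbrev BK := Fin (K + 2) → ℂ

/-- diagonal operators -/
noncomputable def diag (c : Fin (K + 2) → ℂ) : BK K →L[ℂ] BK K :=
  ContinuousLinearMap.pi fun j => c j • ContinuousLinearMap.proj j

theorem diag_apply (c : Fin (K + 2) → ℂ) (x : BK K) (j : Fin (K + 2)) :
    diag K c x j = c j * x j := rfl

/-- the operator `L` -/
noncomputable def DD : BK K →L[ℂ] BK K := diag K fun j => Complex.I * (j : ℕ)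

/-- the semigroups -/
noncomputable def UU (lam t : ℝ) : BK K →L[ℂ] BK K :=
  diag K fun j => Complex.exp (Complex.I * ((lam * t : ℝ) : ℂ) * (j : ℕ))

/-- the functional -/
noncomputable def fnl : BK K →L[ℂ] ℂ :=
  ∑ j : Fin (K + 2), gw K j • ContinuousLinearMap.proj j

theorem fnl_apply (x : BK K) : fnl K x = ∑ j : Fin (K + 2), gw K j * x j := by
  simp [fnl]

/-- the projection -/
noncomputable def PP : BK K →L[ℂ] BK K := (fnl K).smulRight (fun _ => 1)

theorem PP_apply (x : BK K) (j : Fin (K + 2)) : PP K x j = fnl K x := by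
  show fnl K x * 1 = _
  exact mul_one _

theorem fnl_one : fnl K (fun _ => 1) = 1 := by
  have h := gw_sum K
  rw [Finset.sum_range] at h
  rw [fnl_apply]
  exact (Finset.sum_congr rfl fun j _ => mul_one _).trans h

theorem PP_PP : PP K * PP K = PP K := by
  refine ContinuousLinearMap.ext fun x => funext fun j => ?_
  have h0 : (PP K * PP K) x = PP K (PP K x) := rfl
  rw [h0, PP_apply, PP_apply]
  have : PP K x = fnl K x • (fun _ => (1:ℂ)) := by
    funext j; rw [PP_apply]; simp
  rw [this, map_smul, fnl_one]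
  simp

theorem DD_iter (k : ℕ) (x : BK K) (j : Fin (K + 2)) :
    ((DD K)^[k] x) j = (Complex.I * (j : ℕ)) ^ k * x j := by
  induction k generalizing x with
  | zero => simp
  | succ k ih =>
    rw [Function.iterate_succ, Function.comp, ih]
    simp only [DD, diag_apply]
    ring

theorem fnl_iter {k : ℕ} (h1 : 1 ≤ k) (hk : k ≤ K) (x : BK K) :
    fnl K ((DD K)^[k] (PP K x)) = 0 := by
  rw [fnl_apply]
  simp only [DD_iter, PP_apply]
  have h2 := gw_pow K h1 hk
  rw [Finset.sum_range] at h2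
  have : ∀ j : Fin (K + 2), gw K j * ((Complex.I * (j : ℕ)) ^ k * fnl K x) =
      (Complex.I ^ k * fnl K x) * (gw K j * ((j : ℕ) : ℂ) ^ k) := by
    intro j; rw [mul_pow]; ring
  simp only [this]
  rw [← Finset.mul_sum, h2, mul_zero]

theorem norm_UU (lam t : ℝ) (x : BK K) : ‖UU K lam t x‖ = ‖x‖ := by
  have h : ∀ j, ‖UU K lam t x j‖ = ‖x j‖ := by
    intro j
    rw [UU, diag_apply, norm_mul]
    have : Complex.I * ((lam * t : ℝ) : ℂ) * ((j : ℕ) : ℂ) = ((lam * t * (j : ℕ) : ℝ) : ℂ) * Complex.I := by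
      push_cast; ring
    rw [this, Complex.norm_exp_ofReal_mul_I, one_mul]
  simp only [Pi.norm_def]
  congr 1
  refine Finset.sup_congr rfl fun j _ => ?_
  ext
  exact h j

theorem UU_semigroup (lam : ℝ) : IsC0Semigroup (UU K lam) where
  zero := by
    refine ContinuousLinearMap.ext fun x => funext fun j => ?_
    simp [UU, diag_apply]
  add := by
    intro s t _ _
    refine ContinuousLinearMap.ext fun x => funext fun j => ?_
    have h0 : (UU K lam s * UU K lam t) x = UU K lam s (UU K lam t x) := rfl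
    rw [h0]
    simp only [UU, diag_apply]
    rw [← mul_assoc, ← Complex.exp_add]
    congr 2
    push_cast
    ring
  cont := by
    intro x
    apply Continuous.continuousOn
    apply continuous_pi
    intro j
    simp only [UU, diag_apply]
    fun_prop

theorem UU_deriv (lam : ℝ) (x : BK K) :
    Tendsto (fun h : ℝ => (h : ℂ)⁻¹ • (UU K lam h x - x)) (𝓝[>] 0) (𝓝 ((lam : ℂ) • DD K x)) := by
  rw [tendsto_pi_nhds]
  intro j
  simp only [Pi.smul_apply, Pi.sub_apply, UU, DD, diag_apply, smul_eq_mul]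
  have h1 : HasDerivAt (fun h : ℝ => Complex.exp (Complex.I * ((lam * h : ℝ) : ℂ) * ((j : ℕ) : ℂ)))
      (Complex.I * lam * (j : ℕ)) 0 := by
    have h2 : HasDerivAt (fun h : ℝ => Complex.I * ((lam * h : ℝ) : ℂ) * ((j : ℕ) : ℂ))
        (Complex.I * lam * (j : ℕ)) 0 := by
      have h3 : HasDerivAt (fun h : ℝ => (h : ℂ)) 1 0 := Complex.ofRealCLM.hasDerivAt
      have h4 := ((h3.const_mul (lam : ℂ)).const_mul Complex.I).mul_const ((j : ℕ) : ℂ)
      refine h4.congr_deriv ?_ |>.congr_of_eventuallyEq (Eventually.of_forall fun h => ?_)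
      · ring
      · push_cast; ring
    have h5 := h2.cexp
    simpa using h5
  have h6 := h1.hasDerivWithinAt (s := Set.Ioi 0)
  rw [hasDerivWithinAt_iff_tendsto_slope' (by simp)] at h6
  have h7 := h6.mul_const (x j)
  have e : (lam : ℂ) * (Complex.I * ((j : ℕ) : ℂ) * x j) = Complex.I * lam * (j : ℕ) * x j := by ring
  rw [e]
  refine h7.congr fun h => ?_
  simp [slope, vsub_eq_sub]
  ring

theorem UU_zero (t : ℝ) : UU K 0 t = 1 := by
  refine ContinuousLinearMap.ext fun x => funext fun j => ?_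
  simp [UU, diag_apply]

theorem PB_fin : FiniteDimensional ℂ (LinearMap.range (PP K : BK K →ₗ[ℂ] BK K)) := inferInstance

/-- the example as an instance of the setting of the problem -/
noncomputable def exm (hK : 1 ≤ K) : Setting (BK K) where
  P := PP K
  P_proj := PP_PP K
  P_fin := PB_fin K
  L0 := 0
  L := (DD K : BK K →ₗ[ℂ] BK K).toPMap ⊤
  lamSup := 1
  lamSup_pos := one_pos
  U := UU K
  semigroup := fun lam _ _ => UU_semigroup K lam
  generator := by
    intro lam _ _
    have hdom : ((0 : BK K →ₗ.[ℂ] BK K) + (lam : ℂ) • (DD K : BK K →ₗ[ℂ] BK K).toPMap ⊤).domain = ⊤ := by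
      rw [LinearPMap.add_domain, LinearPMap.smul_domain, LinearPMap.zero_domain]
      simp
    have hval : ∀ x : ((0 : BK K →ₗ.[ℂ] BK K) +
        (lam : ℂ) • (DD K : BK K →ₗ[ℂ] BK K).toPMap ⊤).domain,
        ((0 : BK K →ₗ.[ℂ] BK K) + (lam : ℂ) • (DD K : BK K →ₗ[ℂ] BK K).toPMap ⊤) x =
          (lam : ℂ) • DD K x := by
      intro x
      rw [LinearPMap.add_apply, LinearPMap.smul_apply]
      simp
    refine ⟨fun x => ?_, fun x => ?_⟩
    · rw [hdom]
      exact ⟨fun _ => ⟨_, UU_deriv K lam x⟩, fun _ => trivial⟩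
    · rw [hval]
      exact UU_deriv K lam x
  inv_range := by
    intro t _ x hx
    rw [UU_zero]; exact hx
  inv_ker := by
    intro t _ x hx
    rw [UU_zero]; exact hx
  PLP := by
    intro x
    refine ⟨trivial, funext fun j => ?_⟩
    rw [PP_apply]
    exact fnl_iter K le_rfl hK x
  V := fun _ => ContinuousLinearEquiv.refl ℂ (BK K)
  V_nonneg := by
    intro t _
    rw [UU_zero]; rfl
  V_neg := by
    intro t _
    rfl

theorem isProd_iff (hK : 1 ≤ K) (ts : List ℝ) : ∀ x y : BK K,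
    (exm K hK).IsProd ts x y ↔ y = (DD K)^[ts.length] x := by
  induction ts with
  | nil => intro x y; simp [Setting.IsProd, eq_comm]
  | cons t ts ih =>
    intro x y
    simp only [Setting.IsProd, List.length_cons, Function.iterate_succ', Function.comp]
    constructor
    · rintro ⟨z, hz, _, h⟩
      rw [ih] at hz
      subst hz
      rw [← h]; rfl
    · intro h
      refine ⟨_, (ih x _).2 rfl, trivial, ?_⟩
      rw [h]; rfl

theorem isPProd_zero (hK : 1 ≤ K) (ts : List ℝ) (h1 : 1 ≤ ts.length) (h2 : ts.length ≤ K) :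
    (exm K hK).IsPProd ts 0 := by
  intro x
  refine ⟨_, (isProd_iff K hK ts _ _).2 rfl, ?_⟩
  funext j
  have h3 := fnl_iter K h1 h2 x
  have h4 : (exm K hK).P ((DD K)^[ts.length] ((exm K hK).P x)) j = 0 := by
    show PP K _ j = 0
    rw [PP_apply]; exact h3
  rw [h4]; rfl

theorem hypothesis (hK : 1 ≤ K) {n : ℕ} (hn : n + 1 ≤ K) : (exm K hK).Hypothesis n := by
  intro k h1 h2
  refine ⟨fun _ => 0, fun τ => isPProd_zero K hK _ (by simpa using h1) (by simp; omega), ?_⟩
  intro t _
  simp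

/-- the matrix element of the reduced dynamics -/
theorem reduced_apply (hK : 1 ≤ K) (lam s : ℝ) :
    (exm K hK).reduced lam s (fun _ => 1) 0 =
      1 - (Complex.exp (Complex.I * ((lam * s : ℝ) : ℂ)) - 1) ^ (K + 1) := by
  have h1 : (exm K hK).reduced lam s (fun _ => 1) 0 = PP K (UU K lam s (PP K (fun _ => 1))) 0 := rfl
  rw [h1, PP_apply, ← gw_exp, fnl_apply, Finset.sum_range]
  refine Finset.sum_congr rfl fun j _ => ?_
  rw [UU, diag_apply, PP_apply, fnl_one, mul_one, ← Complex.exp_nat_mul]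
  congr 2
  ring

theorem ansatz_tendsto {B : Type*} [NormedAddCommGroup B] [NormedSpace ℂ B] [CompleteSpace B]
    (m m' : ℕ) (R G : ℕ → B →L[ℂ] B) (t : ℝ) :
    Tendsto (fun lam : ℝ => ansatz m m' R G lam t) (𝓝[>] 0) (𝓝 (ansatz m m' R G 0 t)) := by
  have h : Continuous (fun lam : ℝ => ansatz m m' R G lam t) := by
    unfold ansatz
    refine Continuous.mul ?_ ?_
    · have h0 : Continuous (fun lam : ℝ =>
          ∑ j ∈ Finset.range (m' + 1), ((lam : ℂ) ^ j) • G j) := by
        refine continuous_finsetSum _ fun j _ => ?_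
        exact ((Complex.continuous_ofReal).pow j).smul continuous_const
      have h1 : Continuous (fun lam : ℝ =>
          (t : ℂ) • ∑ j ∈ Finset.range (m' + 1), ((lam : ℂ) ^ j) • G j) := h0.const_smul (t : ℂ)
      let _ : NormedAlgebra ℚ (B →L[ℂ] B) := NormedAlgebra.restrictScalars ℚ ℂ _
      exact (NormedSpace.exp_continuous).comp h1
    · refine continuous_finsetSum _ fun j _ => ?_
      exact ((Complex.continuous_ofReal).pow j).smul continuous_const
  exact (h.tendsto 0).mono_left nhdsWithin_le_nhds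

theorem no_limit (hK : 1 ≤ K) (m m' : ℕ) (R G : ℕ → BK K →L[ℂ] BK K) {t : ℝ} (ht : 0 < t) :
    ¬ Tendsto (fun lam : ℝ => (exm K hK).reduced lam (t / lam ^ 2) - ansatz m m' R G lam t)
      (𝓝[>] 0) (𝓝 0) := by
  intro h
  have h1 := h.add (ansatz_tendsto m m' R G t)
  simp only [sub_add_cancel, zero_add] at h1
  have h2 : Tendsto (fun lam : ℝ => (exm K hK).reduced lam (t / lam ^ 2) (fun _ => 1) 0) (𝓝[>] 0)
      (𝓝 (ansatz m m' R G 0 t (fun _ => 1) 0)) := by
    have h3 : Continuous (fun A : BK K →L[ℂ] BK K => A (fun _ => 1) 0) :=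
      (continuous_apply 0).comp (ContinuousLinearMap.apply ℂ (BK K) (fun _ => 1)).continuous
    exact (h3.tendsto _).comp h1
  simp only [reduced_apply] at h2
  set ℓ := ansatz m m' R G 0 t (fun _ => 1) 0
  have key : ∀ c : ℝ, 0 < c → (∀ k : ℕ, ∃ w : ℂ, True) →
      Tendsto (fun k : ℕ => t / (2 * Real.pi * k + c)) atTop (𝓝[>] 0) := by
    intro c hc _
    have hpi := Real.pi_pos
    rw [tendsto_nhdsWithin_iff]
    constructor
    · refine Tendsto.const_div_atTop ?_ t
      refine tendsto_atTop_add_const_right _ _ ?_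
      exact tendsto_natCast_atTop_atTop.const_mul_atTop (by positivity)
    · refine Eventually.of_forall fun k => ?_
      simp only [Set.mem_Ioi]
      positivity
  have hval : ∀ c : ℝ, 0 < c → ∀ k : ℕ,
      (t / (2 * Real.pi * k + c)) * (t / (t / (2 * Real.pi * k + c)) ^ 2) = 2 * Real.pi * k + c := by
    intro c hc k
    have hpi := Real.pi_pos
    have : 0 < 2 * Real.pi * k + c := by positivity
    field_simp
  have hexp : ∀ (c : ℝ) (k : ℕ), Complex.exp (Complex.I * ((2 * Real.pi * k + c : ℝ) : ℂ)) =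
      Complex.exp (Complex.I * c) := by
    intro c k
    have : Complex.I * ((2 * Real.pi * k + c : ℝ) : ℂ) =
        Complex.I * c + k * (2 * Real.pi * Complex.I) := by push_cast; ring
    rw [this, Complex.exp_add, Complex.exp_nat_mul_two_pi_mul_I, mul_one]
  have lim : ∀ c : ℝ, 0 < c → 1 - (Complex.exp (Complex.I * c) - 1) ^ (K + 1) = ℓ := by
    intro c hc
    have h4 := h2.comp (key c hc (fun _ => ⟨0, trivial⟩))
    refine tendsto_nhds_unique ?_ h4
    have h5 : ((fun lam : ℝ => 1 - (Complex.exp (Complex.I * ((lam * (t / lam ^ 2) : ℝ) : ℂ)) - 1) ^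
        (K + 1)) ∘ fun k : ℕ => t / (2 * Real.pi * k + c)) =
        fun _ => 1 - (Complex.exp (Complex.I * c) - 1) ^ (K + 1) := by
      funext k
      simp only [Function.comp]
      rw [hval c hc k, hexp]
    rw [h5]
    exact tendsto_const_nhds
  have e1 := lim (2 * Real.pi) (by positivity)
  have e2 := lim Real.pi Real.pi_pos
  rw [← e1] at e2
  have x1 : Complex.exp (Complex.I * (2 * Real.pi : ℝ)) = 1 := by
    have : Complex.I * ((2 * Real.pi : ℝ) : ℂ) = 2 * Real.pi * Complex.I := by push_cast; ring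
    rw [this]; exact Complex.exp_two_pi_mul_I
  have x2 : Complex.exp (Complex.I * (Real.pi : ℝ)) = -1 := by
    rw [mul_comm]; exact Complex.exp_pi_mul_I
  rw [x1, x2] at e2
  have e3 : ((-1 : ℂ) - 1) ^ (K + 1) = 0 := by
    have : (1 - 1 : ℂ) ^ (K + 1) = 0 := by simp
    rw [this] at e2
    linear_combination -e2
  have : ((-1 : ℂ) - 1) ≠ 0 := by norm_num
  exact pow_ne_zero _ this e3

end Example

/-- **Main theorem.** For every `K ≥ 1` there is an instance of the setting of the problem on the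
finite-dimensional space `ℂ^(K+2)`, with `L0 = 0`, `L` everywhere defined, and all `U lam t`
isometries, such that
* all the operators `P L_{t_1} ⋯ L_{t_k} P` with `1 ≤ k ≤ K` vanish identically, so the hypotheses
  of the problem hold for every `n ≤ K - 1`;
* for no `t > 0` and no polynomial `r`, `G` does the difference between the reduced dynamics at time
  `t / lam ^ 2` and `u_t r` even tend to `0` as `lam → 0+`; in particular the conclusion of the
  problem fails for every `n`. -/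
theorem result : ∀ K : ℕ, 1 ≤ K → ∃ S : Setting (Fin (K + 2) → ℂ),
    S.L0 = 0 ∧ S.L.domain = ⊤ ∧ S.Isometric ∧ S.VanishUpTo K ∧
    (∀ n, n + 1 ≤ K → S.Hypothesis n) ∧ (∀ t, 0 < t → S.NoExpansionAt t) ∧
    ∀ n, ¬ S.Conclusion n := by
  intro K hK
  refine ⟨exm K hK, rfl, rfl, norm_UU K, fun ts h1 h2 => isPProd_zero K hK ts h1 h2,
    fun n hn => hypothesis K hK hn, fun t ht m m' R G => no_limit K hK m m' R G ht, ?_⟩
  rintro n ⟨m, m', R, G, _, _, h⟩
  refine no_limit K hK m m' R G one_pos ?_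
  refine (h 1 one_pos).trans_tendsto ?_
  have h1 : Tendsto (fun lam : ℝ => lam ^ (2 * n + 2)) (𝓝 0) (𝓝 (0 ^ (2 * n + 2))) :=
    (continuous_pow _).tendsto 0
  rw [zero_pow (by omega)] at h1
  exact h1.mono_left nhdsWithin_le_nhds

end Pool.Agent.Results.MP_245269_an.HigherOrderFails
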